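import Pool.Agent.H.MP_c978f4_al.Main

set_option autoImplicit false

namespace Pool.Agent.Results.MP_c978f4_al.AutW

def IsConj (F A : Type) [Field F] [CommRing A] [Algebra F A]
    (ψ : Derivation F A A → Derivation F A A) : Prop :=
  ∃ φ : A ≃ₐ[F] A, ∀ (D : Derivation F A A) (f : A), ψ D f = φ (D (φ.symm f))

def AllConj (F A : Type) [Field F] [CommRing A] [Algebra F A] : Prop :=
  ∀ ψ : Derivation F A A ≃ₗ⁅F⁆ Derivation F A A, IsConj F A ψ

theorem result (F : Type) [Field F] [CharZero F] : AllConj F (MvPolynomial ℕ F) := fun ψ =>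
  Pool.Agent.H.MP_c978f4_al.Bu.main (θ := ψ)
    ⟨ψ.surjective, fun _ _ h => ψ.injective h, fun d e => map_add ψ d e,
      fun d e => ψ.map_lie d e, fun c d => map_smul ψ c d⟩

end Pool.Agent.Results.MP_c978f4_al.AutW
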